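import Pool.Agent.MP_dfa28f_co.Mg.Main

namespace Pool.Agent.Results.MP_dfa28f_co.AllBut7And9

/-- For `k = 8` and every `k ≥ 10` there is a finite connected `P_k`-free graph whose cop number
exceeds `⌊(k-1)/2⌋`. -/
theorem result (k : ℕ) (h8 : 8 ≤ k) (h9 : k ≠ 9) :
    ∃ (V : Type) (_ : Finite V) (G : SimpleGraph V), G.Connected ∧
      ¬ (SimpleGraph.pathGraph k).IsIndContained G ∧ (k - 1) / 2 < N6ef48c04.copNumber G := by
  rcases Nat.even_or_odd' k with ⟨l, hl | hl⟩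
  · obtain ⟨V, hV, G, h1, h2, h3⟩ :=
      Pool.Agent.MP_dfa28f_co.exists_graph 1 (l - 3) k le_rfl (by omega)
    exact ⟨V, hV, G, h1, h2, by omega⟩
  · obtain ⟨V, hV, G, h1, h2, h3⟩ :=
      Pool.Agent.MP_dfa28f_co.exists_graph 2 (l - 5) k (by omega) (by omega)
    exact ⟨V, hV, G, h1, h2, by omega⟩

end Pool.Agent.Results.MP_dfa28f_co.AllBut7And9
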